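import Pool.Agent.ATZ.Stmts1

/-!
# Squad ATZ, row IVZ: invariance of `Az` under the power map
-/

open scoped BigOperators

set_option autoImplicit false

noncomputable section

namespace Pool.Agent.PP.TB.H17

open Pool.Agent.Helper51_AWC Pool.Agent.Helper79_WRA Pool.Agent.PP Pool.Agent.PP.KF
open Pool.Agent.PP.K9 Pool.Agent.PP.K9.H97 Pool.Agent.PP.H75 Pool.Agent.PP.T3 Pool.Agent.PP.T2
open Pool.Agent.PP.T5 Pool.Agent.PP.TB

attribute [local instance] Ideal.Quotient.field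

theorem ivz (h1 : ZcpStmt) (h2 : T5.KerStmt) : IvzStmt := by
  intro ℓ _ M _ hM G _ _ e V Z γ b hZ N hN z hz χ hχ hχN ψ hψ hψN
  rcases eq_or_ne z 1 with rfl | hz1
  · rw [one_pow]
  have hp : ℓ.Prime := Fact.out
  have hN' : ¬ ℓ ∣ N := by
    have hzV : z ∈ V := hZ.le hz
    obtain ⟨n, hn⟩ := hZ.tp.pg ⟨z, hzV⟩
    have hn' : z ^ ℓ ^ n = 1 := congrArg Subtype.val hn
    obtain ⟨k, -, hk⟩ := (Nat.dvd_prime_pow hp).1 (orderOf_dvd_of_pow_eq_one hn')
    have hk0 : k ≠ 0 := by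
      rintro rfl
      rw [pow_zero, orderOf_eq_one_iff] at hk
      exact hz1 hk
    have hd : ℓ ∣ Nat.card G := (dvd_pow_self ℓ hk0).trans (hk ▸ orderOf_dvd_natCard z)
    intro h
    have h3 := Nat.dvd_gcd h hd
    rw [hN.cop.gcd_eq_one] at h3
    exact hp.one_lt.ne' (Nat.dvd_one.1 h3)
  obtain ⟨c1, c2, c3⟩ := (h1 ℓ M hM G e V Z γ b hZ).2.1 z hz N hN'
  have hix : Ix (Cu z) (b z) := (hZ.lb z hz).1.bx.ix
  have key : ∀ s ∈ Cu z, Reg ℓ s → ∀ κ ∈ Irr G, (∀ g, κ (g ^ N) = κ g) →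
      gv M (Cu z) (z ^ N * s) (b z) κ = gv M (Cu z) (z * s) (b z) κ := by
    intro s hs hsr κ hκ hκN
    rw [h2 ℓ M hM G z (z ^ N) (fun c hc => by
        have h4 : Commute c z := Subgroup.mem_centralizer_singleton_iff.1 hc
        exact (h4.pow_right N).symm.eq) (b z) hix s hs hsr κ hκ,
      h2 ℓ M hM G z z (fun c hc => (Subgroup.mem_centralizer_singleton_iff.1 hc).symm) (b z) hix
        s hs hsr κ hκ]
    congr 1
    apply finsum_congr
    intro c
    apply finsum_congr_Prop rfl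
    rintro ⟨hc, hcr⟩
    congr 1
    have h4 : Commute z c := (Subgroup.mem_centralizer_singleton_iff.1 hc).symm
    rw [← hκN (z * c), h4.mul_pow, hN.reg c hcr]
  unfold Az
  rw [c1, c2, c3]
  congr 1
  unfold mm
  congr 1
  apply finsum_congr
  intro s
  apply finsum_congr_Prop rfl
  rintro ⟨hs, hsr⟩
  rw [key s hs hsr χ hχ hχN, key s hs hsr ψ hψ hψN]

end Pool.Agent.PP.TB.H17
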