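import Pool.Agent.ATZ.Stmts1
import Pool.Agent.Helper88_AT3.Loc
import Pool.Agent.Helper79_AT3.FUS
import Pool.Agent.Helper49_AT3.CNT
import Pool.Agent.Helper17_AT6.CLC
import Pool.Agent.Helper17_AT6.OBZ

/-!
# Squad ATZ, row ZCP: conjugation and powers of the data `(z, b z)`
-/

open scoped BigOperators

set_option autoImplicit false

noncomputable section

namespace Pool.Agent.PP.TB.H17

open Pool.Agent.Helper51_AWC Pool.Agent.Helper79_WRA Pool.Agent.PP Pool.Agent.PP.KF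
open Pool.Agent.PP.K9 Pool.Agent.PP.K9.H97 Pool.Agent.PP.H75 Pool.Agent.PP.T3 Pool.Agent.PP.T2
open Pool.Agent.PP.T5 Pool.Agent.PP.TB

attribute [local instance] Ideal.Quotient.field

section tools

variable {F G : Type} [Field F] [Group G] [Finite G]

/-- uniqueness of the block over `γ` -/
theorem uniq {ℓ : ℕ} [Fact ℓ.Prime] (hF : GoodF ℓ F) {V : Subgroup G} (hV : IsPGroup ℓ V)
    {γ : G → F} (hγ : Bx (Subgroup.centralizer (V : Set G)) γ) {z : G}
    (hc : ∀ v ∈ V, v * z = z * v) {β β' : G → F} (h : Bx (Cu z) β) (h' : Bx (Cu z) β')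
    (hg : mulF (br V β) γ = γ) (hg' : mulF (br V β') γ = γ) : β = β' := by
  have hVC : V ≤ Cu z := fun v hv => Subgroup.mem_centralizer_singleton_iff.2 (hc v hv)
  rcases h.dich h' with h3 | h3
  · exact h3
  · exfalso
    apply hγ.ne
    have h1 := T3.H88.br_mul hF hV hVC h.ix h'.ix
    rw [h3, T3.H88.br_zero] at h1
    calc γ = mulF (br V β) (mulF (br V β') γ) := by rw [hg', hg]
      _ = mulF (mulF (br V β) (br V β')) γ := (mulF_assoc _ _ _).symm
      _ = 0 := by rw [← h1, mulF_zero_left]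

omit [Finite G] in
theorem mem_cu_conj (t z x : G) : x ∈ Cu (t * z * t⁻¹) ↔ t⁻¹ * x * t ∈ Cu z := by
  rw [Subgroup.mem_centralizer_singleton_iff, Subgroup.mem_centralizer_singleton_iff]
  constructor
  · intro h
    calc t⁻¹ * x * t * z = t⁻¹ * (x * (t * z * t⁻¹)) * t := by group
      _ = t⁻¹ * ((t * z * t⁻¹) * x) * t := by rw [h]
      _ = z * (t⁻¹ * x * t) := by group
  · intro h
    calc x * (t * z * t⁻¹) = t * (t⁻¹ * x * t * z) * t⁻¹ := by group
      _ = t * (z * (t⁻¹ * x * t)) * t⁻¹ := by rw [h]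
      _ = t * z * t⁻¹ * x := by group

omit [Finite G] in
theorem cu_pow2 {ℓ : ℕ} [Fact ℓ.Prime] {z : G} (hz : El ℓ z) {j : ℕ} (hj : ¬ ℓ ∣ j) :
    Cu (z ^ j) = Cu z := by
  have hp : ℓ.Prime := Fact.out
  obtain ⟨n, hn⟩ := hz
  -- an inverse of `j`
  have hcop : Nat.Coprime j (ℓ ^ (n + 1)) :=
    Nat.Coprime.pow_right _ ((Nat.Prime.coprime_iff_not_dvd hp).2 hj).symm
  obtain ⟨i, hi⟩ := Nat.exists_mul_mod_eq_one_of_coprime hcop
    (Nat.one_lt_pow (Nat.succ_ne_zero n) hp.one_lt)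
  have hz1 : z ^ ℓ ^ (n + 1) = 1 := by rw [pow_succ, pow_mul, hn, one_pow]
  have hzi : (z ^ j) ^ i = z := by
    rw [← pow_mul]
    have h1 : j * i ≡ 1 [MOD ℓ ^ (n + 1)] := by
      unfold Nat.ModEq
      rw [hi.2, Nat.mod_eq_of_lt (Nat.one_lt_pow (Nat.succ_ne_zero n) hp.one_lt)]
    have h2 : j * i ≡ 1 [MOD orderOf z] := h1.of_dvd (orderOf_dvd_of_pow_eq_one hz1)
    have h3 := pow_eq_pow_iff_modEq.2 h2
    rw [pow_one] at h3
    exact h3
  ext x
  rw [Subgroup.mem_centralizer_singleton_iff, Subgroup.mem_centralizer_singleton_iff]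
  constructor
  · intro h
    have h1 : Commute x (z ^ j) := h
    have h2 := h1.pow_right i
    rw [hzi] at h2
    exact h2
  · intro h
    have h1 : Commute x z := h
    exact h1.pow_right j

end tools

theorem zcp (h1 : T5.Ix5Stmt) : ZcpStmt := by
  intro ℓ _ M _ hM G _ _ e V Z γ b hZ
  classical
  have hp : ℓ.Prime := Fact.out
  have hF : GoodF ℓ (FF M) := H50.fld ℓ Fact.out M hM
  have hEl : ∀ z ∈ Z, El ℓ z := by
    intro z hz
    obtain ⟨n, hn⟩ := hZ.tp.pg ⟨z, hZ.le hz⟩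
    exact ⟨n, congrArg Subtype.val hn⟩
  have hA : ∀ z ∈ Z, Subgroup.centralizer (Z : Set G) ⊓ Tg V γ ≤ Tg V γ ⊓ Cu z := by
    intro z hz x hx
    refine Subgroup.mem_inf.2 ⟨hx.2, ?_⟩
    rw [Subgroup.mem_centralizer_singleton_iff]
    exact (Subgroup.mem_centralizer_iff.1 hx.1 z hz).symm
  have horb : ∀ z ∈ Z, cz V Z γ z * {y | ∃ t ∈ Tg V γ, y = t * z * t⁻¹}.ncard = iz V Z γ := by
    intro z hz
    have h2 : {y | ∃ t ∈ Tg V γ, y = t * z * t⁻¹}.ncard = (Tg V γ ⊓ Cu z).relIndex (Tg V γ) :=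
      T6.H17.orb_ncard (Tg V γ) z
    rw [h2]
    exact Subgroup.relIndex_mul_relIndex _ _ _ (hA z hz) inf_le_left
  have hpos : 0 < iz V Z γ := by
    unfold iz
    exact Nat.pos_of_ne_zero Subgroup.index_ne_zero_of_finite
  have hcpos : ∀ z ∈ Z, 0 < cz V Z γ z := by
    intro z _
    unfold cz
    exact Nat.pos_of_ne_zero Subgroup.index_ne_zero_of_finite
  have hcconj : ∀ z ∈ Z, ∀ t ∈ Tg V γ, cz V Z γ (t * z * t⁻¹) = cz V Z γ z := by
    intro z hz t ht
    have h2 := horb z hz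
    have h3 := horb (t * z * t⁻¹) (hZ.nrm t ht z hz)
    have h4 : {y | ∃ s ∈ Tg V γ, y = s * (t * z * t⁻¹) * s⁻¹} =
        {y | ∃ s ∈ Tg V γ, y = s * z * s⁻¹} := by
      ext y
      constructor
      · rintro ⟨s, hs, rfl⟩
        refine ⟨s * t, (Tg V γ).mul_mem hs ht, ?_⟩
        group
      · rintro ⟨s, hs, rfl⟩
        refine ⟨s * t⁻¹, (Tg V γ).mul_mem hs ((Tg V γ).inv_mem ht), ?_⟩
        group
    rw [h4] at h3
    have h5 : 0 < {y | ∃ s ∈ Tg V γ, y = s * z * s⁻¹}.ncard := by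
      rw [Set.ncard_pos (Set.toFinite _)]
      exact ⟨z, 1, (Tg V γ).one_mem, by group⟩
    exact Nat.eq_of_mul_eq_mul_right h5 (h3.trans h2.symm)
  have hbconj : ∀ z ∈ Z, ∀ t ∈ Tg V γ, cj t (b z) = b (t * z * t⁻¹) := by
    intro z hz t ht
    have hz' := hZ.nrm t ht z hz
    have hbx : Bx (Cu (t * z * t⁻¹)) (cj t (b z)) :=
      T3.H62.bx_cj (fun x => mem_cu_conj t z x) (hZ.lb z hz).1.bx
    have hγ : cj t γ = γ := (cj_eq_iff t γ).2 ht.2
    apply uniq hF hZ.tp.pg hZ.gam (fun v hv => hZ.cen _ hz' v hv) hbx (hZ.lb _ hz').1.bx _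
      (hZ.lb _ hz').2
    rw [← T3.H79.cj_br ht.1]
    conv_lhs => rw [← hγ]
    rw [← cj_mulF, (hZ.lb z hz).2, hγ]
  have hirr : ∀ χ ∈ Irr G, ∀ x y : G, χ (y * x * y⁻¹) = χ x := by
    rintro χ ⟨n, ρ, -, rfl⟩ x y
    exact ρ.char_conj x y
  refine ⟨?_, ?_, horb, hpos, ?_, hcpos, ?_⟩
  · intro z hz t ht
    refine ⟨hbconj z hz t ht, hcconj z hz t ht, ?_⟩
    intro χ hχ ψ hψ
    rw [← hbconj z hz t ht]
    unfold mm
    have hcard : Nat.card (Cu (t * z * t⁻¹)) = Nat.card (Cu z) :=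
      (Nat.card_congr (T3.H62.cjE (rfl : t * z * t⁻¹ = t * z * t⁻¹)).toEquiv).symm
    rw [hcard]
    congr 1
    rw [← finsum_comp_equiv (MulAut.conj t).toEquiv]
    apply finsum_congr
    intro s
    have hs : (MulAut.conj t).toEquiv s = t * s * t⁻¹ := rfl
    rw [hs]
    have hmem : (t * s * t⁻¹ ∈ Cu (t * z * t⁻¹) ∧ Reg ℓ (t * s * t⁻¹)) = (s ∈ Cu z ∧ Reg ℓ s) := by
      have h3 : t⁻¹ * (t * s * t⁻¹) * t = s := by group
      have h4 : orderOf (t * s * t⁻¹) = orderOf s := MulEquiv.orderOf_eq (MulAut.conj t) s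
      rw [mem_cu_conj, h3]
      unfold Reg
      rw [h4]
    apply finsum_congr_Prop hmem
    intro _
    have hk : t * z * t⁻¹ * (t * s * t⁻¹) = t * (z * s) * t⁻¹ := by group
    have hcl : IsCl (fun s : Cu z => b z s) := (hZ.lb z hz).1.bx.blk.1.1
    rw [hk, T6.H17.gv_cj2 (M := M) (z * s) rfl hcl (hirr χ hχ),
      T6.H17.gv_cj2 (M := M) (z * s) rfl hcl (hirr ψ hψ)]
  · intro z hz j hj
    have hC := cu_pow2 (hEl z hz) hj
    have hzj : z ^ j ∈ Z := Z.pow_mem hz j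
    refine ⟨hC, ?_, ?_⟩
    · apply uniq hF hZ.tp.pg hZ.gam (fun v hv => hZ.cen _ hzj v hv) (hZ.lb _ hzj).1.bx _
        (hZ.lb _ hzj).2 (hZ.lb _ hz).2
      rw [hC]
      exact (hZ.lb z hz).1.bx
    · unfold cz
      rw [hC]
  · -- `iz` is prime to `ℓ`
    have h2 := h1 ℓ M hM G e hZ.blk V hZ.tp γ hZ.gam hZ.und
    intro h3
    apply h2
    have hle : V ⊔ Subgroup.centralizer (V : Set G) ≤
        Subgroup.centralizer (Z : Set G) ⊓ Tg V γ := by
      apply sup_le
      · intro v hv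
        refine Subgroup.mem_inf.2 ⟨?_, Subgroup.le_normalizer hv, ?_⟩
        · rw [Subgroup.mem_centralizer_iff]
          intro z hz
          exact (hZ.cen z hz v hv).symm
        · intro x
          by_cases hx : x ∈ Subgroup.centralizer (V : Set G)
          · have h4 : v * x = x * v := Subgroup.mem_centralizer_iff.1 hx v hv
            rw [h4, mul_inv_cancel_right]
          · rw [hZ.gam.supp x hx, hZ.gam.supp]
            intro h4
            apply hx
            have h5 : v * (v * x * v⁻¹) = (v * x * v⁻¹) * v := Subgroup.mem_centralizer_iff.1 h4 v hv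
            have h6 : v * x * v⁻¹ = x := by
              have h7 : v * x * v⁻¹ * v = v * x := by group
              rw [h7] at h5
              exact mul_left_cancel h5
            rw [← h6]
            exact h4
      · intro c hc
        refine Subgroup.mem_inf.2 ⟨?_, ?_, ?_⟩
        · rw [Subgroup.mem_centralizer_iff]
          intro z hz
          exact Subgroup.mem_centralizer_iff.1 hc z (hZ.le hz)
        · exact Subgroup.centralizer_le_normalizer _ hc
        · exact (cj_eq_iff c γ).1 (hZ.gam.ix.inv hc)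
    have h4 := Subgroup.relIndex_mul_relIndex _ _ _ hle
      (inf_le_right : Subgroup.centralizer (Z : Set G) ⊓ Tg V γ ≤ Tg V γ)
    rw [← h4]
    exact Dvd.dvd.mul_left h3 _
  · unfold cz iz
    congr 1
    apply le_antisymm inf_le_left
    intro x hx
    refine Subgroup.mem_inf.2 ⟨hx, ?_⟩
    rw [Subgroup.mem_centralizer_singleton_iff, mul_one, one_mul]

end Pool.Agent.PP.TB.H17
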